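import Pool.Agent.Y462.PA.Stm

set_option autoImplicit false

/-! # Vertex families of amalgamated products -/

open Classical

namespace Pool.Agent.Y419.PA

open Pool.Agent.Y462.SS Pool.Agent.Y462.PA
open Pool.Agent.Y110.FJ (ClosedE S_EXT S_PERM S_AM Amg)

section aminj

variable {K A B : Type} [Group K] [Group A] [Group B]

/-- the two factors as a family -/
def Fam (A B : Type) : Bool → Type
  | true => A
  | false => B

instance famGroup (A B : Type) [Group A] [Group B] : ∀ b, Group (Fam A B b)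
  | true => inferInstanceAs (Group A)
  | false => inferInstanceAs (Group B)

/-- the two homomorphisms as a family -/
def famHom (α : K →* A) (β : K →* B) : ∀ b, K →* Fam A B b
  | true => α
  | false => β

/-- the first factor in the pushout of Mathlib -/
def pushL (α : K →* A) (β : K →* B) : A →* Monoid.PushoutI (famHom α β) :=
  Monoid.PushoutI.of (φ := famHom α β) true

/-- the second factor in the pushout of Mathlib -/
def pushR (α : K →* A) (β : K →* B) : B →* Monoid.PushoutI (famHom α β) :=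
  Monoid.PushoutI.of (φ := famHom α β) false

theorem push_agree (α : K →* A) (β : K →* B) (c : K) : pushL α β (α c) = pushR α β (β c) :=
  (Monoid.PushoutI.of_apply_eq_base (famHom α β) true c).trans
    (Monoid.PushoutI.of_apply_eq_base (famHom α β) false c).symm

theorem fam_inj {α : K →* A} {β : K →* B} (hα : Function.Injective α)
    (hβ : Function.Injective β) : ∀ b, Function.Injective (famHom α β b)
  | true => hα
  | false => hβ

theorem inl_inj {α : K →* A} {β : K →* B} (hα : Function.Injective α)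
    (hβ : Function.Injective β) : Function.Injective (Am.inl α β) := by
  intro x y h
  have e : ∀ a, Am.lift α β (pushL α β) (pushR α β) (push_agree α β) (Am.inl α β a) =
      pushL α β a := fun a => Am.lift_inl α β _ _ _ a
  have h1 : pushL α β x = pushL α β y := by rw [← e, ← e, h]
  exact Monoid.PushoutI.of_injective (φ := famHom α β) (fam_inj hα hβ) true h1

theorem inr_inj {α : K →* A} {β : K →* B} (hα : Function.Injective α)
    (hβ : Function.Injective β) : Function.Injective (Am.inr α β) := by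
  intro x y h
  have e : ∀ a, Am.lift α β (pushL α β) (pushR α β) (push_agree α β) (Am.inr α β a) =
      pushR α β a := fun a => Am.lift_inr α β _ _ _ a
  have h1 : pushR α β x = pushR α β y := by rw [← e, ← e, h]
  exact Monoid.PushoutI.of_injective (φ := famHom α β) (fam_inj hα hβ) false h1

theorem amg (α : K →* A) (β : K →* B) :
    Amg (Am.inl α β).range (Am.inr α β).range ((Am.inl α β).comp α).range where
  le_left := by
    rintro _ ⟨c, rfl⟩
    exact ⟨α c, rfl⟩
  le_right := by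
    rintro _ ⟨c, rfl⟩
    exact ⟨β c, (Am.glue α β c).symm⟩
  gen := Am.sup_range α β
  univ := by
    intro H _ f g hfg
    refine ⟨Am.lift α β (f.comp (Am.inl α β).rangeRestrict) (g.comp (Am.inr α β).rangeRestrict)
      fun c => ?_, ?_, ?_⟩
    · have h1 := hfg (Am.inl α β (α c)) ⟨c, rfl⟩
      have h2 : (Am.inr α β).rangeRestrict (β c) =
          ⟨Am.inl α β (α c), ⟨β c, (Am.glue α β c).symm⟩⟩ :=
        Subtype.ext (Am.glue α β c).symm
      rw [MonoidHom.comp_apply, MonoidHom.comp_apply, h2]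
      exact h1
    · rintro ⟨_, a, rfl⟩
      rw [Am.lift_inl]
      rfl
    · rintro ⟨_, b, rfl⟩
      rw [Am.lift_inr]
      rfl

end aminj

/-- the factors of an amalgamated product embed -/
theorem t_aminj : S_AMINJ := fun _ _ _ _ _ _ _ _ hα hβ => ⟨inl_inj hα hβ, inr_inj hα hβ⟩

theorem t_tla (h : S_EMB) : S_TLA := by
  intro C hC K A B _ _ _ α β hα hβ FA FB tA tB ⟨A', hA', hαA'⟩ ⟨B', hB', hβB'⟩ P _ f hCP hf
  have il := inl_inj hα hβ
  have ir := inr_inj hα hβ
  obtain ⟨P1, _, ΘA, hC1, _, hlA⟩ := tA P (f.comp (Am.inl α β)) hCP (by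
    intro A0 hA0 a ha h1
    have h2 := hf (A0.map (Am.inl α β)) (Or.inl ⟨A0, hA0, rfl⟩) (Am.inl α β a) ⟨a, ha, rfl⟩ h1
    exact il (h2.trans (map_one _).symm))
  have hΘA : Function.Injective ΘA := by assumption
  obtain ⟨l, hl, hlΘ⟩ := hlA A' hA'
  obtain ⟨P2, _, ΘB, hC2, _, hlB⟩ := tB P1 (l.comp (f.comp (Am.inr α β))) hC1 (by
    intro B0 hB0 b hb h1
    have h3 : f (Am.inr α β b) = 1 := hl (h1.trans (map_one _).symm)
    have h2 := hf (B0.map (Am.inr α β)) (Or.inr ⟨B0, hB0, rfl⟩) (Am.inr α β b) ⟨b, hb, rfl⟩ h3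
    exact ir (h2.trans (map_one _).symm))
  have hΘB : Function.Injective ΘB := by assumption
  obtain ⟨l', hl', hlΘ'⟩ := hlB B' hB'
  obtain ⟨f1, hf1⟩ : ∃ f1 : Am α β →* P2, f1 = Am.lift α β (l'.comp ΘA) ΘB (fun c => by
      rw [MonoidHom.comp_apply, hlΘ (α c) (hαA' ⟨c, rfl⟩), hlΘ' (β c) (hβB' ⟨c, rfl⟩)]
      rw [MonoidHom.comp_apply, MonoidHom.comp_apply, MonoidHom.comp_apply, Am.glue α β c]) :=
    ⟨_, rfl⟩
  have f1l : ∀ a, f1 (Am.inl α β a) = l' (ΘA a) := by
    intro a
    rw [hf1, Am.lift_inl]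
    rfl
  have f1r : ∀ b, f1 (Am.inr α β b) = ΘB b := by
    intro b
    rw [hf1, Am.lift_inr]
  obtain ⟨Q, _, ι, z, Θ, hCQ, hι, hΘ, hΘa, hΘb⟩ := h C hC (Am α β) P2 _ _ _ (amg α β) f1 (by
    rintro _ ⟨a, rfl⟩ h1
    rw [f1l] at h1
    have h2 : ΘA a = 1 := hl' (h1.trans (map_one _).symm)
    have h3 : a = 1 := hΘA (h2.trans (map_one _).symm)
    rw [h3, map_one]) (by
    rintro _ ⟨b, rfl⟩ h1
    rw [f1r] at h1
    have h3 : b = 1 := hΘB (h1.trans (map_one _).symm)
    rw [h3, map_one]) hC2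
  refine ⟨Q, inferInstance, Θ, hCQ, hΘ, ?_⟩
  rintro A0 (⟨A1, hA1, rfl⟩ | ⟨B1, hB1, rfl⟩)
  · obtain ⟨lA, hlAi, hlAe⟩ := hlA A1 hA1
    refine ⟨ι.comp (l'.comp lA), hι.comp (hl'.comp hlAi), ?_⟩
    rintro _ ⟨a, ha, rfl⟩
    rw [hΘa _ ⟨a, rfl⟩, f1l, hlAe a ha]
    rfl
  · obtain ⟨lB, hlBi, hlBe⟩ := hlB B1 hB1
    refine ⟨(MulAut.conj z).toMonoidHom.comp (ι.comp (lB.comp l)), ?_, ?_⟩
    · exact (MulAut.conj z).injective.comp (hι.comp (hlBi.comp hl))
    · rintro _ ⟨b, hb, rfl⟩
      rw [hΘb _ ⟨b, rfl⟩, f1r, hlBe b hb]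
      rfl

end Pool.Agent.Y419.PA
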